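import Pool.Agent.LPR.Stmts

/-!
# FLO: flow boxes
-/

set_option autoImplicit false

open Set Topology Filter
open scoped BigOperators Interval

namespace Pool.Agent.LPR.H7

open Pool.Agent.LSG Pool.Agent.LPR

/-- integral over a moved interval -/
theorem mov (h : ℝ → ℝ) (hc : Continuous h) (τ s t : ℝ) :
    (∫ u in (0:ℝ)..τ, h (u + t)) - (∫ u in (0:ℝ)..τ, h (u + s)) =
      ∫ u in s..t, (h (u + τ) - h u) := by
  have hi : ∀ a b : ℝ, IntervalIntegrable h MeasureTheory.volume a b := fun a b =>
    hc.intervalIntegrable a b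
  have hi2 : ∀ a b : ℝ, IntervalIntegrable (fun u => h (u + τ)) MeasureTheory.volume a b :=
    fun a b => (hc.comp (continuous_id.add continuous_const)).intervalIntegrable a b
  rw [intervalIntegral.integral_sub (hi2 s t) (hi s t)]
  rw [intervalIntegral.integral_comp_add_right, intervalIntegral.integral_comp_add_right,
    intervalIntegral.integral_comp_add_right]
  simp only [zero_add]
  have e1 := intervalIntegral.integral_add_adjacent_intervals (hi s t) (hi t (τ + t))
  have e2 := intervalIntegral.integral_add_adjacent_intervals (hi s (τ + s)) (hi (τ + s) (τ + t))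
  rw [add_comm s τ, add_comm t τ]
  linarith

/-- lower bound -/
theorem low (g : ℝ → ℝ) (hc : Continuous g) (s t : ℝ) (hst : s ≤ t)
    (h : ∀ u ∈ Icc s t, 1 / 2 ≤ g u) : (t - s) / 2 ≤ ∫ u in s..t, g u := by
  have h1 : ∫ u in s..t, (1 / 2 : ℝ) ≤ ∫ u in s..t, g u :=
    intervalIntegral.integral_mono_on hst (continuous_const.intervalIntegrable _ _)
      (hc.intervalIntegrable _ _) h
  rw [intervalIntegral.integral_const] at h1
  simp only [smul_eq_mul] at h1
  linarith

theorem flo : FloStmt := by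
  intro X _ _ φ hφ h0 hadd p hp
  let _ : MetricSpace X := TopologicalSpace.metrizableSpaceMetric X
  -- a positive time
  obtain ⟨τ, hτ0, hτ⟩ : ∃ τ : ℝ, 0 < τ ∧ φ τ p ≠ p := by
    obtain ⟨t, ht⟩ := hp
    rcases lt_trichotomy t 0 with h | h | h
    · refine ⟨-t, by linarith, fun hh => ht ?_⟩
      have := hadd t (-t) p
      rw [hh, add_neg_cancel, h0] at this
      exact this.symm
    · subst h
      exact absurd (h0 p) ht
    · exact ⟨t, h, ht⟩
  have hφt : ∀ t, Continuous (φ t) := fun t => hφ.comp (Continuous.prodMk_right t)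
  have hinv : ∀ t x, φ t (φ (-t) x) = x := fun t x => by rw [← hadd, add_neg_cancel, h0]
  have hinv' : ∀ t x, φ (-t) (φ t x) = x := fun t x => by rw [← hadd, neg_add_cancel, h0]
  set D : ℝ := dist (φ τ p) p with hD
  have hDpos : 0 < D := dist_pos.mpr hτ
  let f : X → ℝ := fun x => dist x p / D
  have hf : Continuous f := (continuous_id.dist continuous_const).div_const D
  let h : X → ℝ → ℝ := fun x u => f (φ u x)
  have hh : Continuous (Function.uncurry h) :=
    hf.comp (hφ.comp (continuous_snd.prodMk continuous_fst))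
  have hhx : ∀ x, Continuous (h x) := fun x => hh.comp (Continuous.prodMk_right x)
  let F : X → ℝ := fun x => ∫ u in (0:ℝ)..τ, h x u
  have hF : Continuous F :=
    intervalIntegral.continuous_parametric_intervalIntegral_of_continuous' hh 0 τ
  have hshift : ∀ x t, F (φ t x) = ∫ u in (0:ℝ)..τ, h x (u + t) := by
    intro x t
    show ∫ u in (0:ℝ)..τ, h (φ t x) u = _
    congr 1
    funext u
    show f (φ u (φ t x)) = f (φ (u + t) x)
    rw [hadd]
  let g : X → ℝ → ℝ := fun x u => h x (u + τ) - h x u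
  have hg : Continuous (Function.uncurry g) := by
    apply Continuous.sub
    · exact hh.comp (continuous_fst.prodMk (continuous_snd.add continuous_const))
    · exact hh
  have hgx : ∀ x, Continuous (g x) := fun x => hg.comp (Continuous.prodMk_right x)
  have hgp : g p 0 = 1 := by
    show f (φ (0 + τ) p) - f (φ 0 p) = 1
    rw [zero_add, h0]
    show dist (φ τ p) p / D - dist p p / D = 1
    rw [dist_self, zero_div, sub_zero, ← hD, div_self hDpos.ne']
  -- the box
  have hev : ∀ᶠ q : X × ℝ in 𝓝 (p, 0), 1 / 2 < Function.uncurry g q := by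
    apply (hg.tendsto (p, 0)).eventually
    apply lt_mem_nhds
    show (1 / 2 : ℝ) < g p 0
    rw [hgp]
    norm_num
  rw [nhds_prod_eq, Filter.eventually_prod_iff] at hev
  obtain ⟨P1, hP1, P2, hP2, hPP⟩ := hev
  obtain ⟨ε, hε, hε'⟩ := Metric.eventually_nhds_iff.mp hP2
  set δ : ℝ := ε / 4 with hδ
  have hδ0 : 0 < δ := by positivity
  let W : Set X := {x | P1 x}
  have hW : W ∈ 𝓝 p := hP1
  have hgW : ∀ x ∈ W, ∀ u, |u| ≤ 2 * δ → 1 / 2 ≤ g x u := by
    intro x hx u hu
    apply le_of_lt
    apply hPP hx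
    apply hε'
    rw [Real.dist_eq, sub_zero]
    have : 2 * δ < ε := by rw [hδ]; linarith
    linarith
  -- growth of F along orbits
  have hgrow : ∀ x ∈ W, ∀ s t : ℝ, |s| ≤ 2 * δ → |t| ≤ 2 * δ → s ≤ t →
      (t - s) / 2 ≤ F (φ t x) - F (φ s x) := by
    intro x hx s t hs ht hst
    rw [hshift, hshift, mov (h x) (hhx x) τ s t]
    apply low (g x) (hgx x) s t hst
    intro u hu
    apply hgW x hx
    rw [abs_le] at hs ht ⊢
    exact ⟨by linarith [hu.1], by linarith [hu.2]⟩
  have hgrow2 : ∀ x ∈ W, ∀ t : ℝ, |t| ≤ 2 * δ → |t| / 2 ≤ |F (φ t x) - F x| := by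
    intro x hx t ht
    have hz : |(0 : ℝ)| ≤ 2 * δ := by rw [abs_zero]; positivity
    rcases le_total 0 t with h1 | h1
    · have := hgrow x hx 0 t hz ht h1
      rw [h0, sub_zero] at this
      rw [abs_of_nonneg h1]
      exact this.trans (le_abs_self _)
    · have := hgrow x hx t 0 ht hz h1
      rw [h0, zero_sub] at this
      rw [abs_of_nonpos h1, abs_sub_comm]
      exact this.trans (le_abs_self _)
  let S : Set X := {x | x ∈ W ∧ F x = F p}
  let N : Set X := {y | ∃ x ∈ S, ∃ t ∈ Icc (-δ) δ, φ t x = y}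
  have hN : N ∈ 𝓝 p := by
    -- small times keep points near p in W
    have hev2 : ∀ᶠ q : X × ℝ in 𝓝 (p, 0), φ (-q.2) q.1 ∈ W := by
      have hc : Continuous fun q : X × ℝ => φ (-q.2) q.1 :=
        hφ.comp (continuous_snd.neg.prodMk continuous_fst)
      apply (hc.tendsto (p, 0)).eventually
      have : φ (-((p, (0:ℝ)) : X × ℝ).2) ((p, (0:ℝ)) : X × ℝ).1 = p := by
        simp [h0]
      rw [this]
      exact hW
    rw [nhds_prod_eq, Filter.eventually_prod_iff] at hev2
    obtain ⟨Q1, hQ1, Q2, hQ2, hQQ⟩ := hev2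
    obtain ⟨ε2, hε2, hε2'⟩ := Metric.eventually_nhds_iff.mp hQ2
    set η : ℝ := min δ (ε2 / 2) with hη
    have hη0 : 0 < η := lt_min hδ0 (by positivity)
    have hηδ : η ≤ δ := min_le_left _ _
    have hηε : η < ε2 := lt_of_le_of_lt (min_le_right _ _) (by linarith)
    have hpW : p ∈ W := mem_of_mem_nhds hW
    have hup : F p < F (φ η p) := by
      have := hgrow p hpW 0 η (by rw [abs_zero]; positivity)
        (by rw [abs_of_pos hη0]; linarith) hη0.le
      rw [h0] at this
      linarith
    have hdn : F (φ (-η) p) < F p := by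
      have := hgrow p hpW (-η) 0 (by rw [abs_neg, abs_of_pos hη0]; linarith)
        (by rw [abs_zero]; positivity) (by linarith)
      rw [h0] at this
      linarith
    have e1 : ∀ᶠ y in 𝓝 p, F p < F (φ η y) :=
      ((hF.comp (hφt η)).tendsto p).eventually (lt_mem_nhds hup)
    have e2 : ∀ᶠ y in 𝓝 p, F (φ (-η) y) < F p :=
      ((hF.comp (hφt (-η))).tendsto p).eventually (gt_mem_nhds hdn)
    filter_upwards [e1, e2, hQ1] with y hy1 hy2 hy3
    -- intermediate value
    have hc : ContinuousOn (fun t : ℝ => F (φ t y)) (Icc (-η) η) :=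
      (hF.comp (hφ.comp (continuous_id.prodMk continuous_const))).continuousOn
    have hiv := intermediate_value_Icc (by linarith : -η ≤ η) hc
    obtain ⟨t, ht, htF⟩ := hiv ⟨hy2.le, hy1.le⟩
    have htF' : F (φ t y) = F p := htF
    refine ⟨φ t y, ⟨?_, htF'⟩, -t, ⟨by linarith [ht.2], by linarith [ht.1]⟩, hinv' t y⟩
    have := hQQ hy3 (y := -t) (hε2' (by
      rw [Real.dist_eq, sub_zero, abs_neg]
      exact lt_of_le_of_lt (abs_le.mpr ht) hηε))
    simp only [neg_neg] at this
    exact this
  -- injectivity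
  have hinj : ∀ x ∈ S, ∀ x' ∈ S, ∀ t ∈ Icc (-δ) δ, ∀ t' ∈ Icc (-δ) δ, φ t x = φ t' x' →
      t = t' ∧ x = x' := by
    intro x hx x' hx' t ht t' ht' heq
    have e1 : φ (t - t') x = x' := by
      have : φ (-t') (φ t x) = x' := by rw [heq, hinv']
      rw [← hadd] at this
      rw [← this]
      congr 1
      ring
    have hb : |t - t'| ≤ 2 * δ := by
      rw [abs_le]
      exact ⟨by linarith [ht.1, ht'.2], by linarith [ht.2, ht'.1]⟩
    have e2 := hgrow2 x hx.1 (t - t') hb
    rw [e1, hx'.2, hx.2, sub_self, abs_zero] at e2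
    have e3 : |t - t'| = 0 := le_antisymm (by linarith) (abs_nonneg _)
    have e4 : t = t' := by
      have := abs_eq_zero.mp e3
      linarith
    refine ⟨e4, ?_⟩
    rw [← e1, e4, sub_self, h0]
  let b : S × Icc (-δ) δ → N := fun q => ⟨φ q.2 q.1, q.1, q.1.2, q.2, q.2.2, rfl⟩
  have hbb : Function.Bijective b := by
    constructor
    · rintro ⟨x, t⟩ ⟨x', t'⟩ heq
      have h1 : φ (t : ℝ) (x : X) = φ (t' : ℝ) (x' : X) := congrArg Subtype.val heq
      obtain ⟨h2, h3⟩ := hinj x x.2 x' x'.2 t t.2 t' t'.2 h1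
      exact Prod.ext (Subtype.ext h3) (Subtype.ext h2)
    · rintro ⟨y, x, hx, t, ht, rfl⟩
      exact ⟨(⟨x, hx⟩, ⟨t, ht⟩), rfl⟩
  have hbc : Continuous b := by
    apply Continuous.subtype_mk
    exact hφ.comp ((continuous_subtype_val.comp continuous_snd).prodMk
      (continuous_subtype_val.comp continuous_fst))
  let e : (S × Icc (-δ) δ) ≃ N := Equiv.ofBijective b hbb
  have hev3 : ∀ y : N, φ ((e.symm y).2 : ℝ) ((e.symm y).1 : X) = (y : X) := by
    intro y
    have : b (e.symm y) = y := e.apply_symm_apply y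
    exact congrArg Subtype.val this
  have hback : ∀ y : N, ((e.symm y).1 : X) = φ (-((e.symm y).2 : ℝ)) (y : X) := by
    intro y
    rw [← hev3 y, hinv']
  have hT : Continuous fun y : N => ((e.symm y).2 : ℝ) := by
    rw [continuous_iff_continuousAt]
    intro y₀
    rw [ContinuousAt, tendsto_iff_dist_tendsto_zero]
    have hcF : Continuous fun y : N =>
        2 * |F (φ (-((e.symm y₀).2 : ℝ)) (y : X)) - F p| :=
      continuous_const.mul
        (((hF.comp ((hφt _).comp continuous_subtype_val)).sub continuous_const).abs)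
    have hz : 2 * |F (φ (-((e.symm y₀).2 : ℝ)) (y₀ : X)) - F p| = 0 := by
      rw [← hback y₀, (e.symm y₀).1.2.2, sub_self, abs_zero, mul_zero]
    have hlim : Tendsto (fun y : N => 2 * |F (φ (-((e.symm y₀).2 : ℝ)) (y : X)) - F p|) (𝓝 y₀)
        (𝓝 0) := by
      rw [← hz]
      exact hcF.tendsto y₀
    refine squeeze_zero (fun y => dist_nonneg) (fun y => ?_) hlim
    rw [Real.dist_eq]
    set t := ((e.symm y).2 : ℝ) with ht
    set t₀ := ((e.symm y₀).2 : ℝ) with ht₀
    have hty := (e.symm y).2.2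
    have hty₀ := (e.symm y₀).2.2
    have hb : |t - t₀| ≤ 2 * δ := by
      rw [abs_le]
      exact ⟨by linarith [hty.1, hty₀.2], by linarith [hty.2, hty₀.1]⟩
    have e1 : φ (t - t₀) ((e.symm y).1 : X) = φ (-t₀) (y : X) := by
      rw [← hev3 y, ← hadd]
      congr 1
      ring
    have e2 := hgrow2 _ (e.symm y).1.2.1 (t - t₀) hb
    rw [e1, (e.symm y).1.2.2] at e2
    linarith
  have hc1 : Continuous fun y : N => (e.symm y).1 := by
    apply continuous_induced_rng.mpr
    have : (Subtype.val ∘ fun y : N => (e.symm y).1) =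
        fun y : N => φ (-((e.symm y).2 : ℝ)) (y : X) := by
      funext y
      exact hback y
    rw [this]
    exact hφ.comp (hT.neg.prodMk continuous_subtype_val)
  have hc2 : Continuous fun y : N => (e.symm y).2 := continuous_induced_rng.mpr hT
  have hec : Continuous e.symm := hc1.prodMk hc2
  have E1 : N ≃ₜ S × Icc (-δ) δ :=
    { toEquiv := e.symm
      continuous_toFun := hec
      continuous_invFun := hbc }
  exact ⟨N, hN, S, ⟨E1.trans ((Homeomorph.refl S).prodCongr
    (iccHomeoI (-δ) δ (by linarith)))⟩⟩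

end Pool.Agent.LPR.H7
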